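import Pool.Agent.KT3.StmtsC
import Pool.Agent.Helper13_NBT.Main

/-!
# KT3 squad (MP_e54c4c_gt), row T3F: Theorem T3
-/

set_option autoImplicit false

open Matrix Filter Topology

namespace Pool.Agent.KT3.H87

open Pool.Agent.PFS Pool.Agent.PFJ Pool.Agent.NBT Pool.Agent.KT3

theorem fS_reindex {n K : ℕ} (w : Fin K → V n) (e : Equiv.Perm (Fin K)) (I : Finset (Fin K)) :
    fS (fun i => w (e i)) I = fS w (I.map e.toEmbedding) := by
  unfold fS
  rw [Finset.sum_map]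
  rfl

theorem lf_self {n d : ℕ} {C : Set (V n)} {Γ : Subgroup (GL (Fin n) ℝ)} (hCC : CC C Γ)
    {w : Fin 3 → V n} (hw : WI C Γ I01 d w) : Lf C w (w 0) := by
  have h0 : w 0 ∈ BI C w I01 := hw.box.mem 0 (by decide)
  have h1 : w 1 ∈ BI C w I01 := hw.box.mem 1 (by decide)
  have hcl : w 0 ∈ closure C := PES.cl hw.pes.1 0
  refine ⟨h0, hcl, ?_, ?_⟩
  · intro hU
    obtain ⟨M, hM, hMc⟩ := hU.2.2 (w 1) h1
    have h2 : ∑ i, (![M, -1, 0] : Fin 3 → ℝ) i • w i ∈ closure C := by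
      have h3 : ∑ i, (![M, -1, 0] : Fin 3 → ℝ) i • w i = M • w 0 - w 1 := by
        rw [Fin.sum_univ_three]
        simp [sub_eq_add_neg]
      rw [h3]
      exact hMc
    have h4 := nng n C hCC.toPCone (Fin 3) w hw.pes.1 _ h2 1
    simp at h4
    linarith
  · intro c hc
    have h5 := Pool.Agent.PFS.H60.lin n C hCC.toPCone (Fin 3) w hw.pes.1
    have h6 := Fintype.linearIndependent_iff.mp h5 ![1, -c, 0] (by
      rw [Fin.sum_univ_three]
      simp [hc]) 0
    simp at h6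

/-- no box triangle if all faces of edges have dimension at most two -/
theorem noBT {n : ℕ} {C : Set (V n)} {Γ : Subgroup (GL (Fin n) ℝ)} (hCC : CC C Γ)
    (hd : ∀ w : Fin 3 → V n, IsPES C Γ w → Module.finrank ℝ (BI C w I01) ≤ 2) :
    NoBT C Γ 3 := by
  intro w hw i j l hB
  obtain ⟨hij, -, -, ⟨L, hL, hL3⟩, -, -⟩ := hB
  have h1 := ((H13.ibf n C hCC.toPCone 3 w hw.1).1 {i, j} L hL).2.1
  have h2 : 3 ≤ Module.finrank ℝ (BI C w {i, j}) := hL3.trans (Submodule.finrank_mono h1)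
  obtain ⟨e, he0, he1⟩ : ∃ e : Equiv.Perm (Fin 3), e 0 = i ∧ e 1 = j := by
    refine ⟨(Equiv.swap 0 i).trans (Equiv.swap ((Equiv.swap 0 i) 1) j), ?_, ?_⟩
    · rw [Equiv.trans_apply, Equiv.swap_apply_left]
      refine Equiv.swap_apply_of_ne_of_ne ?_ hij
      intro h
      have h3 : (Equiv.swap 0 i) 0 = (Equiv.swap 0 i) 1 := by
        rw [Equiv.swap_apply_left]
        exact h
      exact absurd ((Equiv.swap 0 i).injective h3) (by decide)
    · rw [Equiv.trans_apply, Equiv.swap_apply_left]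
  have h4 : IsPES C Γ (fun k => w (e k)) := ((Pool.Agent.PFS.H60.elm n C Γ hCC (Fin 3) w hw).2.2.1) (Fin 3) e
  have h5 := hd _ h4
  have h6 : BI C (fun k => w (e k)) I01 = BI C w {i, j} := by
    unfold BI
    rw [fS_reindex]
    congr 3
    ext k
    simp only [I01, Finset.mem_map_equiv, Finset.mem_insert, Finset.mem_singleton]
    constructor
    · rintro (h | h)
      · left
        rw [← he0, ← h, Equiv.apply_symm_apply]
      · right
        rw [← he1, ← h, Equiv.apply_symm_apply]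
    · rintro (h | h)
      · left
        rw [h, ← he0, Equiv.symm_apply_apply]
      · right
        rw [h, ← he1, Equiv.symm_apply_apply]
  rw [h6] at h5
  omega

theorem t3fa (hBTF : BtfStmt) (hWIE : WieStmt) (hADI : AdiStmt) (hAMC : AmcStmt) (hREG : RegStmt)
    (hFIN : FinStmt) : T3fStmt := by
  intro n C Γ hCC hmax hex
  classical
  have hHK : HK C Γ 3 := { toCC := hCC, three := le_rfl, maxc := hmax }
  let P : ℕ → Prop := fun d => ∃ w : Fin 3 → V n, IsPES C Γ w ∧ Module.finrank ℝ (BI C w I01) = d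
  have hle : ∀ L : Submodule ℝ (V n), Module.finrank ℝ L ≤ n := by
    intro L
    refine (Submodule.finrank_le L).trans ?_
    rw [Module.finrank_fintype_fun_eq_card, Fintype.card_fin]
  obtain ⟨w0, hw0⟩ := hex
  have hP0 : P (Module.finrank ℝ (BI C w0 I01)) := ⟨w0, hw0, rfl⟩
  obtain ⟨d, hd⟩ : ∃ d : ℕ, d = Nat.findGreatest P n := ⟨_, rfl⟩
  have hPd : P d := by
    rw [hd]
    exact Nat.findGreatest_spec (hle _) hP0
  have hmaxd : ∀ w : Fin 3 → V n, IsPES C Γ w → Module.finrank ℝ (BI C w I01) ≤ d := by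
    intro w hw
    rw [hd]
    exact Nat.le_findGreatest (hle _) ⟨w, hw, rfl⟩
  by_cases hd3 : d ≤ 2
  · exact hBTF n C Γ hCC 2 le_rfl hmax ⟨w0, hw0⟩ (noBT hCC fun w hw => (hmaxd w hw).trans hd3)
  · push Not at hd3
    have hHI : HI C Γ 3 I01 d := { toHK := hHK, maxd := hmaxd }
    have hH3 : H3 C Γ d := { toHI := hHI, d3 := hd3 }
    obtain ⟨w1, hw1⟩ := hWIE n C Γ 3 I01 d hHI hPd
    have hAD2 := (hADI n C Γ d hH3 w1 hw1).1
    let Q : ℕ → Prop := fun δ => ∃ w, AD C Γ d δ w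
    have hQle : ∀ δ, Q δ → δ ≤ n := by
      rintro δ ⟨w, hw⟩
      have hlf : Lf C w (w 0) := lf_self hCC hw.wl
      obtain ⟨L, -, hL⟩ := hw.bx _ hlf
      exact hL.trans (hle L)
    obtain ⟨q, hq⟩ : ∃ q : ℕ, q = Nat.findGreatest Q n := ⟨_, rfl⟩
    have hQq : Q q := by
      rw [hq]
      exact Nat.findGreatest_spec (hQle 2 ⟨w1, hAD2⟩) ⟨w1, hAD2⟩
    have hq2 : 2 ≤ q := by
      rw [hq]
      exact Nat.le_findGreatest (hQle 2 ⟨w1, hAD2⟩) ⟨w1, hAD2⟩
    have hQn : ¬ Q (q + 1) := by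
      intro h
      have h7 : q + 1 ≤ Nat.findGreatest Q n := Nat.le_findGreatest (hQle _ h) h
      omega
    obtain ⟨w, hw, g, hg, l, hl, hgl⟩ := hREG n C Γ hHK _ (hAMC n C Γ d q hH3 hq2 hQq hQn)
    exact hFIN n C Γ 2 hHK w hw g hg l hl hgl

/-- **Row T3F** (the landed row BTF is imported). -/
theorem t3f (hWIE : WieStmt) (hADI : AdiStmt) (hAMC : AmcStmt) (hREG : RegStmt)
    (hFIN : FinStmt) : T3fStmt :=
  t3fa Pool.Agent.NBT.H13.Main.fBTF hWIE hADI hAMC hREG hFIN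

end Pool.Agent.KT3.H87
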